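import Mathlib

/-!
# No finite family of forbidden subgraphs for word-representable line graphs (MP_c3beeb_co)
-/

namespace Pool.Agent.Results.MP_c3beeb_co.NoFiniteFamily

open SimpleGraph

open Classical in
/-- the letters `x` and `y` alternate in the word `w`: both occur, and after deleting all other
letters no two equal letters are adjacent -/
def Alternate {V : Type} (w : List V) (x y : V) : Prop :=
  x ∈ w ∧ y ∈ w ∧ (w.filter (fun z => decide (z = x ∨ z = y))).IsChain (· ≠ ·)

/-- `G` is (word-)representable -/
def Representable {V : Type} (G : SimpleGraph V) : Prop :=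
  ∃ w : List V, (∀ v, v ∈ w) ∧ ∀ x y, G.Adj x y ↔ x ≠ y ∧ Alternate w x y

/-! ### Alternation and counting -/

section words

variable {V : Type}

/-- `x` and `y` alternate in `w`, starting with `x` -/
def altR : List V → V → V → Prop
  | [], _, _ => True
  | z :: w, x, y => (z = x ∧ altR w y x) ∨ (z ≠ x ∧ z ≠ y ∧ altR w x y)

open Classical in
lemma chain_cons_iff (w : List V) : ∀ x y : V, x ≠ y →
    ((x :: w.filter (fun z => decide (z = x ∨ z = y))).IsChain (· ≠ ·) ↔ altR w y x) := by
  induction w with
  | nil =>
    intro x y _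
    simp [altR]
  | cons z w ih =>
    intro x y hxy
    by_cases h1 : z = x
    · subst h1
      simp [altR, hxy]
    · by_cases h2 : z = y
      · subst h2
        rw [List.filter_cons_of_pos (by simp), List.isChain_cons_cons]
        have h3 := ih z x h1
        have h4 : (fun u => decide (u = x ∨ u = z)) = fun u => decide (u = z ∨ u = x) := by
          funext u
          simp only [or_comm]
        rw [h4, h3]
        simp [altR, hxy, h1]
      · rw [List.filter_cons_of_neg (by simp [h1, h2]), ih x y hxy]
        simp [altR, h1, h2]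

open Classical in
lemma chain_iff (w : List V) (x y : V) (hxy : x ≠ y) :
    (w.filter (fun z => decide (z = x ∨ z = y))).IsChain (· ≠ ·) ↔ altR w x y ∨ altR w y x := by
  induction w with
  | nil => simp [altR]
  | cons z w ih =>
    by_cases h1 : z = x
    · subst h1
      rw [List.filter_cons_of_pos (by simp), chain_cons_iff w z y hxy]
      simp [altR, hxy]
    · by_cases h2 : z = y
      · subst h2
        rw [List.filter_cons_of_pos (by simp)]
        have h4 : (fun u => decide (u = x ∨ u = z)) = fun u => decide (u = z ∨ u = x) := by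
          funext u
          simp only [or_comm]
        rw [h4, chain_cons_iff w z x h1]
        simp [altR, h1]
      · rw [List.filter_cons_of_neg (by simp [h1, h2]), ih]
        simp [altR, h1, h2]

open Classical in
lemma altR_iff (w : List V) : ∀ x y : V, x ≠ y →
    (altR w x y ↔ ∀ p, p <+: w → p.count y ≤ p.count x ∧ p.count x ≤ p.count y + 1) := by
  induction w with
  | nil =>
    intro x y _
    simp [altR]
  | cons z w ih =>
    intro x y hxy
    constructor
    · intro h p hp
      rcases List.prefix_cons_iff.1 hp with rfl | ⟨t, rfl, ht⟩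
      · simp
      · rcases h with ⟨rfl, h⟩ | ⟨h1, h2, h⟩
        · have h3 := (ih y z hxy.symm).1 h t ht
          rw [List.count_cons_self, List.count_cons_of_ne hxy]
          omega
        · have h3 := (ih x y hxy).1 h t ht
          rw [List.count_cons_of_ne h1, List.count_cons_of_ne h2]
          exact h3
    · intro h
      by_cases h1 : z = x
      · subst h1
        refine Or.inl ⟨rfl, (ih y z hxy.symm).2 fun p hp => ?_⟩
        have h3 := h (z :: p) (List.prefix_cons_iff.2 (Or.inr ⟨p, rfl, hp⟩))
        rw [List.count_cons_self, List.count_cons_of_ne hxy] at h3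
        omega
      · by_cases h2 : z = y
        · subst h2
          have h3 := h [z] (List.prefix_cons_iff.2 (Or.inr ⟨[], rfl, List.nil_prefix⟩))
          rw [List.count_cons_self, List.count_cons_of_ne h1] at h3
          simp at h3
        · refine Or.inr ⟨h1, h2, (ih x y hxy).2 fun p hp => ?_⟩
          have h3 := h (z :: p) (List.prefix_cons_iff.2 (Or.inr ⟨p, rfl, hp⟩))
          rw [List.count_cons_of_ne h1, List.count_cons_of_ne h2] at h3
          exact h3

/-- the orientation `R` is semi-transitive -/
structure Semi (G : SimpleGraph V) (R : V → V → Prop) : Prop where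
  adj : ∀ x y, R x y → G.Adj x y
  tot : ∀ x y, G.Adj x y → R x y ∨ R y x
  asym : ∀ x y, R x y → ¬ R y x
  path : ∀ (f : ℕ → V) (k : ℕ), (∀ i, i < k → R (f i) (f (i + 1))) → G.Adj (f 0) (f k) →
    ∀ i j, i < j → j ≤ k → R (f i) (f j)

open Classical in
theorem exists_semi {G : SimpleGraph V} (h : Representable G) : ∃ R, Semi G R := by
  obtain ⟨w, hw, hG⟩ := h
  let D : V → V → Prop := fun x y =>
    ∀ p, p <+: w → p.count y ≤ p.count x ∧ p.count x ≤ p.count y + 1
  have hadj : ∀ x y, G.Adj x y ↔ x ≠ y ∧ (D x y ∨ D y x) := by
    intro x y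
    rw [hG]
    constructor
    · rintro ⟨h1, _, _, h2⟩
      refine ⟨h1, ?_⟩
      rw [chain_iff w x y h1, altR_iff w x y h1, altR_iff w y x h1.symm] at h2
      exact h2
    · rintro ⟨h1, h2⟩
      refine ⟨h1, hw x, hw y, ?_⟩
      rw [chain_iff w x y h1, altR_iff w x y h1, altR_iff w y x h1.symm]
      exact h2
  -- equal counts on all prefixes force equality
  have heq : ∀ x y, (∀ p, p <+: w → p.count x = p.count y) → x = y := by
    intro x y h
    by_contra hxy
    obtain ⟨a, b, hab⟩ := List.append_of_mem (hw x)
    have h1 := h a ⟨x :: b, hab.symm⟩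
    have h2 := h (a ++ [x]) ⟨b, by rw [hab]; simp⟩
    rw [List.count_append, List.count_append, h1, List.count_singleton_self,
      List.count_cons_of_ne hxy] at h2
    simp at h2
  refine ⟨fun x y => x ≠ y ∧ D x y, ?_, ?_, ?_, ?_⟩
  · rintro x y ⟨h1, h2⟩
    exact (hadj x y).2 ⟨h1, Or.inl h2⟩
  · intro x y h
    obtain ⟨h1, h2⟩ := (hadj x y).1 h
    rcases h2 with h2 | h2
    · exact Or.inl ⟨h1, h2⟩
    · exact Or.inr ⟨h1.symm, h2⟩
  · rintro x y ⟨h1, h2⟩ ⟨_, h3⟩
    exact h1 (heq x y fun p hp => le_antisymm (h3 p hp).1 (h2 p hp).1)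
  · intro f k hf h0k i j hij hjk
    have hanti : ∀ p, p <+: w → ∀ a b, a ≤ b → b ≤ k → p.count (f b) ≤ p.count (f a) := by
      intro p hp a b hab
      induction b, hab using Nat.le_induction with
      | base => intro _; exact le_rfl
      | succ b hab ih =>
        intro hb
        exact le_trans ((hf b (by omega)).2 p hp).1 (ih (by omega))
    have hne : f i ≠ f j := by
      intro he
      apply (hf i (by omega)).1
      apply heq
      intro p hp
      apply le_antisymm
      · rw [he]
        exact hanti p hp (i + 1) j (by omega) hjk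
      · exact hanti p hp i (i + 1) (by omega) (by omega)
    refine ⟨hne, fun p hp => ⟨hanti p hp i j hij.le hjk, ?_⟩⟩
    have h1 := hanti p hp 0 i (Nat.zero_le _) (by omega)
    have h2 := hanti p hp j k hjk le_rfl
    have h3 : p.count (f 0) ≤ p.count (f k) + 1 := by
      rcases ((hadj _ _).1 h0k).2 with h | h
      · exact (h p hp).2
      · exact le_trans (h p hp).1 (Nat.le_succ _)
    omega

end words

/-! ### The line graphs of wheels have no semi-transitive orientation -/

section core

variable {V : Type} {G : SimpleGraph V} {R : V → V → Prop}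

lemma Semi.tri (h : Semi G R) {a b c : V} (hab : R a b) (hbc : R b c) (hac : G.Adj a c) :
    R a c := by
  have := h.path (fun i => if i = 0 then a else if i = 1 then b else c) 2 (by
    intro i hi
    interval_cases i
    · simpa using hab
    · simpa using hbc) (by simpa using hac) 0 2 (by norm_num) le_rfl
  simpa using this

lemma Semi.quad (h : Semi G R) {a b c d : V} (hab : R a b) (hbc : R b c) (hcd : R c d)
    (had : G.Adj a d) : R a c ∧ R b d := by
  have key : ∀ i, i < 3 → R ((fun i => if i = 0 then a else if i = 1 then b else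
      if i = 2 then c else d) i) ((fun i => if i = 0 then a else if i = 1 then b else
      if i = 2 then c else d) (i + 1)) := by
    intro i hi
    interval_cases i
    · simpa using hab
    · simpa using hbc
    · simpa using hcd
  have h1 := h.path _ 3 key (by simpa using had) 0 2 (by norm_num) (by norm_num)
  have h2 := h.path _ 3 key (by simpa using had) 1 3 (by norm_num) (by norm_num)
  exact ⟨by simpa using h1, by simpa using h2⟩

/-- the core of the argument, with the spokes in their natural order -/
lemma core (h : Semi G R) (n : ℕ) (hn : 4 ≤ n) (S r : ℕ → V)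
    (hS : ∀ a b, a < b → b < n → R (S a) (S b))
    (hadj : ∀ k, k < n - 1 → G.Adj (S k) (r k) ∧ G.Adj (S (k + 1)) (r k))
    (hnadj : ∀ k j, k < n - 1 → j < n → j ≠ k → j ≠ k + 1 → ¬ G.Adj (S j) (r k))
    (hlast : G.Adj (S 0) (r (n - 1)) ∧ G.Adj (S (n - 1)) (r (n - 1)))
    (hnlast : ∀ j, 0 < j → j < n - 1 → ¬ G.Adj (S j) (r (n - 1)))
    (hrr : ∀ k, k < n - 1 → G.Adj (r k) (r (k + 1))) (hrr0 : G.Adj (r (n - 1)) (r 0))
    (hnrr : ∀ a, a < n → ¬ G.Adj (r a) (r ((a + 2) % n))) : False := by
  -- type `B`: `r k` precedes `S k`
  have hB : ∀ k, k < n - 1 → R (r k) (S k) → R (r k) (S (k + 1)) := fun k hk h1 =>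
    h.tri h1 (hS k (k + 1) (by omega) (by omega)) (hadj k hk).2.symm
  have hA : ∀ k, k < n - 1 → ¬ R (r k) (S k) → R (S k) (r k) ∧ R (S (k + 1)) (r k) := by
    intro k hk h1
    have h2 : R (S k) (r k) := (h.tot _ _ (hadj k hk).1).resolve_right h1
    refine ⟨h2, ?_⟩
    rcases h.tot _ _ (hadj k hk).2 with h3 | h3
    · exact h3
    · exfalso
      rcases Nat.eq_zero_or_pos k with h0 | h0
      · subst h0
        have h4 := (h.quad h2 h3 (hS (0 + 1) 2 (by omega) (by omega))
          (h.adj _ _ (hS 0 2 (by omega) (by omega)))).2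
        exact hnadj 0 2 hk (by omega) (by omega) (by omega) (h.adj _ _ h4).symm
      · have h4 := (h.quad (hS 0 k h0 (by omega)) h2 h3
          (h.adj _ _ (hS 0 (k + 1) (by omega) (by omega)))).1
        exact hnadj k 0 hk (by omega) (by omega) (by omega) (h.adj _ _ h4)
  have hl1 : R (S 0) (r (n - 1)) := by
    rcases h.tot _ _ hlast.1 with h1 | h1
    · exact h1
    · exfalso
      have h2 := (h.quad h1 (hS 0 1 (by omega) (by omega)) (hS 1 (n - 1) (by omega) (by omega))
        hlast.2.symm).1
      exact hnlast 1 (by omega) (by omega) (h.adj _ _ h2).symm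
  have hl2 : R (r (n - 1)) (S (n - 1)) := by
    rcases h.tot _ _ hlast.2 with h1 | h1
    · exfalso
      have h2 := (h.quad (hS 0 1 (by omega) (by omega)) (hS 1 (n - 1) (by omega) (by omega)) h1
        hlast.1).2
      exact hnlast 1 (by omega) (by omega) (h.adj _ _ h2)
    · exact h1
  -- the edges of the rim
  have hAA : ∀ k, k + 1 < n - 1 → ¬ R (r k) (S k) → ¬ R (r (k + 1)) (S (k + 1)) →
      R (r k) (r (k + 1)) := by
    intro k hk h1 h2
    rcases h.tot _ _ (hrr k (by omega)) with h3 | h3
    · exact h3
    · exfalso
      have h4 := (h.quad (hS (k + 1) (k + 1 + 1) (by omega) (by omega)) (hA (k + 1) hk h2).2 h3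
        (hadj k (by omega)).2).2
      exact hnadj k (k + 1 + 1) (by omega) (by omega) (by omega) (by omega) (h.adj _ _ h4)
  have hBB : ∀ k, k + 1 < n - 1 → R (r k) (S k) → R (r (k + 1)) (S (k + 1)) →
      R (r k) (r (k + 1)) := by
    intro k hk h1 h2
    rcases h.tot _ _ (hrr k (by omega)) with h3 | h3
    · exact h3
    · exfalso
      have h4 := (h.quad h3 h1 (hS k (k + 1) (by omega) (by omega)) (h.adj _ _ h2)).1
      exact hnadj (k + 1) k (by omega) (by omega) (by omega) (by omega) (h.adj _ _ h4).symm
  have hBA : ∀ k, k + 1 < n - 1 → R (r k) (S k) → R (r (k + 1)) (S (k + 1)) := by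
    intro k hk h1
    by_contra h2
    have h4 := (h.quad h1 (hS k (k + 1) (by omega) (by omega)) (hA (k + 1) hk h2).1
      (hrr k (by omega))).2
    exact hnadj (k + 1) k (by omega) (by omega) (by omega) (by omega) (h.adj _ _ h4)
  -- the threshold
  have hex : ∃ k, n - 1 ≤ k ∨ R (r k) (S k) := ⟨n - 1, Or.inl le_rfl⟩
  classical
  set a := Nat.find hex with ha
  have ha1 : a ≤ n - 1 := Nat.find_min' hex (Or.inl le_rfl)
  have ha2 : ∀ k, k < a → k < n - 1 ∧ ¬ R (r k) (S k) := by
    intro k hk
    have := Nat.find_min hex hk
    push Not at this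
    exact this
  have ha3 : ∀ k, a ≤ k → k < n - 1 → R (r k) (S k) := by
    intro k hk
    induction k, hk using Nat.le_induction with
    | base =>
      intro h1
      rcases Nat.find_spec hex with h2 | h2
      · omega
      · exact h2
    | succ k hk ih =>
      intro h1
      exact hBA k h1 (ih (by omega))
  -- the edges of the rim, except one, are oriented in the same direction
  have hdir : ∀ k, k < n → (k + 1) % n ≠ a → R (r k) (r ((k + 1) % n)) := by
    intro k hk hka
    rcases Nat.lt_or_ge (k + 1) (n - 1) with h1 | h1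
    · rw [Nat.mod_eq_of_lt (by omega)] at hka ⊢
      rcases Nat.lt_or_ge (k + 1) a with h2 | h2
      · exact hAA k h1 (ha2 k (by omega)).2 (ha2 (k + 1) h2).2
      · exact hBB k h1 (ha3 k (by omega) (by omega)) (ha3 (k + 1) h2 h1)
    · rcases Nat.lt_or_ge (k + 1) n with h2 | h2
      · have hk' : k = n - 2 := by omega
        rw [Nat.mod_eq_of_lt h2] at hka ⊢
        have h3 : k + 1 = n - 1 := by omega
        have h4 := ha3 k (by omega) (by omega)
        rcases h.tot _ _ (hrr k (by omega)) with h5 | h5
        · exact h5
        · exfalso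
          have h6 := (h.quad h5 h4 (hS k (k + 1) (by omega) (by omega)) (by
            rw [h3]
            exact hlast.2.symm)).1
          rw [h3] at h6
          exact hnlast k (by omega) (by omega) (h.adj _ _ h6).symm
      · have hk' : k = n - 1 := by omega
        have h3 : (k + 1) % n = 0 := by
          rw [hk', Nat.sub_add_cancel (by omega), Nat.mod_self]
        rw [h3] at hka ⊢
        rw [hk']
        have h4 := ha2 0 (by omega)
        rcases h.tot _ _ hrr0 with h5 | h5
        · exact h5
        · exfalso
          have h6 := (h.quad (hS 0 1 (by omega) (by omega)) (hA 0 (by omega) h4.2).2 h5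
            hlast.1).2
          exact hnlast 1 (by omega) (by omega) (h.adj _ _ h6)
  -- a shortcut
  have hf : ∀ i, i < n - 1 → R (r ((a + i) % n)) (r ((a + (i + 1)) % n)) := by
    intro i hi
    have h1 := hdir ((a + i) % n) (Nat.mod_lt _ (by omega))
    rw [Nat.mod_add_mod] at h1
    apply h1
    intro h2
    have h3 : (a + i + 1) ≡ a [MOD n] := by
      unfold Nat.ModEq
      rw [h2, Nat.mod_eq_of_lt (by omega)]
    rw [add_assoc] at h3
    have h4 : (i + 1) ≡ 0 [MOD n] := Nat.ModEq.add_left_cancel' a (by simpa using h3)
    have h5 := Nat.le_of_dvd (by omega) ((Nat.modEq_zero_iff_dvd).1 h4)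
    omega
  have hend : G.Adj (r ((a + 0) % n)) (r ((a + (n - 1)) % n)) := by
    rcases Nat.eq_zero_or_pos a with h0 | h0
    · rw [h0, Nat.mod_eq_of_lt (by omega), Nat.mod_eq_of_lt (by omega), zero_add, zero_add]
      exact hrr0.symm
    · have h1 : (a + (n - 1)) % n = a - 1 := by
        have : a + (n - 1) = a - 1 + n := by omega
        rw [this, Nat.add_mod_right, Nat.mod_eq_of_lt (by omega)]
      rw [h1, add_zero, Nat.mod_eq_of_lt (by omega)]
      have h2 := hrr (a - 1) (by omega)
      rw [Nat.sub_add_cancel h0] at h2
      exact h2.symm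
  have h1 := h.path (fun i => r ((a + i) % n)) (n - 1) hf hend 0 2 (by norm_num) (by omega)
  have h2 := hnrr a (by omega)
  apply h2
  have h3 := h.adj _ _ h1
  simp only [add_zero] at h3
  rwa [Nat.mod_eq_of_lt (by omega : a < n)] at h3

/-- the spokes in cyclic order, starting anywhere -/
lemma core_shift (h : Semi G R) (n : ℕ) (hn : 4 ≤ n) (s r : ZMod n → V)
    (hs : ∀ i j : ZMod n, i.val < j.val → R (s i) (s j))
    (hsr : ∀ i j, G.Adj (s j) (r i) ↔ j = i ∨ j = i + 1)
    (hrr : ∀ i, G.Adj (r i) (r (i + 1))) (hnrr : ∀ i, ¬ G.Adj (r i) (r (i + 2))) : False := by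
  have : NeZero n := ⟨by omega⟩
  have hval : ∀ k, k < n → ((k : ℕ) : ZMod n).val = k := fun k hk =>
    ZMod.val_cast_of_lt hk
  have hinj : ∀ j k, j < n → k < n → ((j : ℕ) : ZMod n) = ((k : ℕ) : ZMod n) → j = k := by
    intro j k hj hk he
    rw [← hval j hj, ← hval k hk, he]
  have hn0 : ((n - 1 : ℕ) : ZMod n) + 1 = 0 := by
    have : ((n - 1 + 1 : ℕ) : ZMod n) = 0 := by
      rw [Nat.sub_add_cancel (by omega)]
      exact ZMod.natCast_self n
    push_cast at this
    exact this
  refine core h n hn (fun k => s (k : ℕ)) (fun k => r (k : ℕ)) ?_ ?_ ?_ ?_ ?_ ?_ ?_ ?_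
  · intro a b hab hb
    apply hs
    rw [hval a (by omega), hval b hb]
    exact hab
  · intro k hk
    refine ⟨(hsr _ _).2 (Or.inl rfl), (hsr _ _).2 (Or.inr ?_)⟩
    push_cast
    rfl
  · intro k j hk hj h1 h2 h3
    rcases (hsr _ _).1 h3 with h4 | h4
    · exact h1 (hinj j k hj (by omega) h4)
    · apply h2
      apply hinj j (k + 1) hj (by omega)
      rw [h4]
      push_cast
      rfl
  · refine ⟨(hsr _ _).2 (Or.inr ?_), (hsr _ _).2 (Or.inl rfl)⟩
    rw [hn0]
    simp
  · intro j h1 h2 h3
    rcases (hsr _ _).1 h3 with h4 | h4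
    · have := hinj j (n - 1) (by omega) (by omega) h4
      omega
    · rw [hn0] at h4
      have := hinj j 0 (by omega) (by omega) (by simpa using h4)
      omega
  · intro k hk
    have := hrr (k : ℕ)
    have h2 : (((k + 1 : ℕ)) : ZMod n) = (k : ZMod n) + 1 := by push_cast; rfl
    simp only [h2]
    exact this
  · have := hrr ((n - 1 : ℕ) : ZMod n)
    rw [hn0] at this
    simpa using this
  · intro a ha h1
    apply hnrr (a : ZMod n)
    have h2 : (((a + 2) % n : ℕ) : ZMod n) = (a : ZMod n) + 2 := by
      rw [ZMod.natCast_mod]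
      push_cast
      rfl
    simp only [h2] at h1
    exact h1

/-- the spokes are in cyclic order -/
lemma core_pos (h : Semi G R) (n : ℕ) (hn : 4 ≤ n) (s r : ZMod n → V)
    (q : ZMod n → ℕ) (hq : ∀ i, q i < n) (hqs : ∀ i j : ZMod n, q i < q j → R (s i) (s j))
    (hq1 : ∀ i, (q (i + 1) : ZMod n) = q i + 1)
    (hsr : ∀ i j, G.Adj (s j) (r i) ↔ j = i ∨ j = i + 1)
    (hrr : ∀ i, G.Adj (r i) (r (i + 1))) (hnrr : ∀ i, ¬ G.Adj (r i) (r (i + 2))) : False := by
  have : NeZero n := ⟨by omega⟩
  have h1 : ∀ (k : ℕ) (i : ZMod n), (q (i + k) : ZMod n) = q i + k := by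
    intro k
    induction k with
    | zero => intro i; simp
    | succ k ih =>
      intro i
      push_cast
      rw [← add_assoc, hq1, ih]
      ring
  have h2 : ∀ i j : ZMod n, (q (i + j) : ZMod n) = q i + j := by
    intro i j
    have := h1 j.val i
    simpa using this
  set t : ZMod n := - q 0 with ht
  have h3 : ∀ i : ZMod n, q (i + t) = i.val := by
    intro i
    have h4 : (q (i + t) : ZMod n) = i := by
      have := h2 0 (i + t)
      rw [zero_add] at this
      rw [this, ht]
      ring
    have h5 := congrArg ZMod.val h4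
    rwa [ZMod.val_cast_of_lt (hq _)] at h5
  refine core_shift h n hn (fun i => s (i + t)) (fun i => r (i + t)) ?_ ?_ ?_ ?_
  · intro i j hij
    apply hqs
    rw [h3, h3]
    exact hij
  · intro i j
    rw [hsr]
    constructor
    · rintro (h4 | h4)
      · exact Or.inl (add_right_cancel h4)
      · right
        apply add_right_cancel (b := t)
        rw [h4]
        ring
    · rintro (h4 | h4)
      · exact Or.inl (by rw [h4])
      · right
        rw [h4]
        ring
  · intro i
    have := hrr (i + t)
    rw [show i + 1 + t = i + t + 1 by ring]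
    exact this
  · intro i
    have := hnrr (i + t)
    rw [show i + 2 + t = i + t + 2 by ring]
    exact this

theorem wheel_no_semi (h : Semi G R) (n : ℕ) (hn : 4 ≤ n) (s r : ZMod n → V)
    (hs : ∀ i j, i ≠ j → G.Adj (s i) (s j))
    (hsr : ∀ i j, G.Adj (s j) (r i) ↔ j = i ∨ j = i + 1)
    (hrr : ∀ i, G.Adj (r i) (r (i + 1))) (hnrr : ∀ i, ¬ G.Adj (r i) (r (i + 2))) : False := by
  have : NeZero n := ⟨by omega⟩
  classical
  have hone : (1 : ZMod n) ≠ 0 := by
    have h1 : ((1 : ℕ) : ZMod n).val = 1 := ZMod.val_cast_of_lt (by omega)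
    intro h2
    rw [Nat.cast_one, h2, ZMod.val_zero] at h1
    omega
  have htwo : (2 : ZMod n) ≠ 0 := by
    have h1 : ((2 : ℕ) : ZMod n).val = 2 := ZMod.val_cast_of_lt (by omega)
    intro h2
    rw [Nat.cast_ofNat, h2, ZMod.val_zero] at h1
    omega
  -- total order
  have htot : ∀ i j, i ≠ j → R (s i) (s j) ∨ R (s j) (s i) := fun i j hij => h.tot _ _ (hs i j hij)
  have hirr : ∀ i, ¬ R (s i) (s i) := fun i h1 => h.asym _ _ h1 h1
  have htr : ∀ i j k, R (s i) (s j) → R (s j) (s k) → R (s i) (s k) := by
    intro i j k h1 h2
    have hik : i ≠ k := by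
      rintro rfl
      exact h.asym _ _ h1 h2
    exact h.tri h1 h2 (hs i k hik)
  let q : ZMod n → ℕ := fun i => (Finset.univ.filter fun j => R (s j) (s i)).card
  have hq : ∀ i, q i < n := by
    intro i
    have h1 : (Finset.univ.filter fun j => R (s j) (s i)) ⊂ Finset.univ := by
      rw [Finset.filter_ssubset]
      exact ⟨i, Finset.mem_univ _, hirr i⟩
    have h2 := Finset.card_lt_card h1
    rwa [Finset.card_univ, ZMod.card] at h2
  have hqlt : ∀ i j, R (s i) (s j) → q i < q j := by
    intro i j hij
    apply Finset.card_lt_card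
    rw [Finset.ssubset_iff_of_subset]
    · exact ⟨i, by simpa using hij, by simpa using hirr i⟩
    · intro k hk
      simp only [Finset.mem_filter, Finset.mem_univ, true_and] at hk ⊢
      exact htr k i j hk hij
  have hqs : ∀ i j, q i < q j → R (s i) (s j) := by
    intro i j hij
    by_cases he : i = j
    · subst he
      omega
    · rcases htot i j he with h1 | h1
      · exact h1
      · have := hqlt j i h1
        omega
  have hqinj : ∀ i j, (q i : ZMod n) = q j → i = j := by
    intro i j hij
    have h1 : q i = q j := by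
      have := congrArg ZMod.val hij
      rwa [ZMod.val_cast_of_lt (hq _), ZMod.val_cast_of_lt (hq _)] at this
    by_contra he
    rcases htot i j he with h2 | h2
    · have := hqlt i j h2
      omega
    · have := hqlt j i h2
      omega
  -- neighbouring spokes are consecutive
  have hstep : ∀ x y z : ZMod n, R (s x) (s y) → G.Adj (s x) (r z) → G.Adj (s y) (r z) →
      (∀ j, j ≠ x → j ≠ y → ¬ G.Adj (s j) (r z)) →
      (q y : ZMod n) = q x + 1 ∨ (q x : ZMod n) = q y + 1 := by
    intro x y z hxy hx hy hno
    have hcons : (∀ j, ¬ (R (s x) (s j) ∧ R (s j) (s y))) ∨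
        ((∀ j, j ≠ x → R (s x) (s j)) ∧ (∀ j, j ≠ y → R (s j) (s y))) := by
      have hxy' : G.Adj (s x) (s y) := h.adj _ _ hxy
      rcases h.tot _ _ hx with h1 | h1
      · rcases h.tot _ _ hy with h2 | h2
        · left
          rintro j ⟨h3, h4⟩
          have h5 := (h.quad h3 h4 h2 hx).2
          refine hno j ?_ ?_ (h.adj _ _ h5)
          · rintro rfl
            exact hirr _ h3
          · rintro rfl
            exact hirr _ h4
        · right
          constructor
          · intro j hj
            by_contra h3
            have h4 := (htot x j hj.symm).resolve_left h3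
            have h5 : j ≠ y := by
              rintro rfl
              exact h.asym _ _ hxy h4
            have h6 := (h.quad h4 h1 h2 (hs j y h5)).1
            exact hno j hj h5 (h.adj _ _ h6)
          · intro j hj
            by_contra h3
            have h4 := (htot j y hj).resolve_left h3
            have h5 : x ≠ j := by
              rintro rfl
              exact h.asym _ _ hxy h4
            have h6 := (h.quad h1 h2 h4 (hs x j h5)).2
            exact hno j h5.symm hj (h.adj _ _ h6).symm
      · left
        rintro j ⟨h3, h4⟩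
        have h5 := h.tri h1 hxy hy.symm
        have h6 := (h.quad h1 h3 h4 hy.symm).1
        refine hno j ?_ ?_ (h.adj _ _ h6).symm
        · rintro rfl
          exact hirr _ h3
        · rintro rfl
          exact hirr _ h4
    rcases hcons with h1 | ⟨h1, h2⟩
    · left
      have h3 : (Finset.univ.filter fun j => R (s j) (s y)) =
          insert x (Finset.univ.filter fun j => R (s j) (s x)) := by
        ext j
        simp only [Finset.mem_filter, Finset.mem_univ, true_and, Finset.mem_insert]
        constructor
        · intro h4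
          by_cases h5 : j = x
          · exact Or.inl h5
          · right
            rcases htot x j (Ne.symm h5) with h6 | h6
            · exact absurd ⟨h6, h4⟩ (h1 j)
            · exact h6
        · rintro (rfl | h4)
          · exact hxy
          · exact htr _ _ _ h4 hxy
      have h4 : q y = q x + 1 := by
        change (Finset.univ.filter fun j => R (s j) (s y)).card = _
        rw [h3, Finset.card_insert_of_notMem (by simpa using hirr x)]
      rw [h4]
      push_cast
      rfl
    · right
      have h3 : q x = 0 := by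
        change (Finset.univ.filter fun j => R (s j) (s x)).card = 0
        rw [Finset.card_eq_zero, Finset.filter_eq_empty_iff]
        intro j _ hj
        have hjx : j ≠ x := by
          rintro rfl
          exact hirr _ hj
        exact h.asym _ _ hj (h1 j hjx)
      have h4 : q y = n - 1 := by
        change (Finset.univ.filter fun j => R (s j) (s y)).card = _
        have : (Finset.univ.filter fun j => R (s j) (s y)) = Finset.univ.erase y := by
          ext j
          simp only [Finset.mem_filter, Finset.mem_univ, true_and, Finset.mem_erase, and_true]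
          constructor
          · rintro h5 rfl
            exact hirr _ h5
          · exact h2 j
        rw [this, Finset.card_erase_of_mem (Finset.mem_univ _), Finset.card_univ, ZMod.card]
      rw [h3, h4]
      have : ((n - 1 + 1 : ℕ) : ZMod n) = 0 := by
        rw [Nat.sub_add_cancel (by omega)]
        exact ZMod.natCast_self n
      push_cast at this ⊢
      rw [this]
  have hpm : ∀ i, (q (i + 1) : ZMod n) = q i + 1 ∨ (q i : ZMod n) = q (i + 1) + 1 := by
    intro i
    have h1 : i ≠ i + 1 := by
      intro h2
      exact hone (by simpa using h2.symm)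
    have h2 : ∀ j, j ≠ i → j ≠ i + 1 → ¬ G.Adj (s j) (r i) := by
      intro j h3 h4 h5
      rcases (hsr _ _).1 h5 with h6 | h6
      · exact h3 h6
      · exact h4 h6
    rcases htot _ _ h1 with h3 | h3
    · exact hstep i (i + 1) i h3 ((hsr _ _).2 (Or.inl rfl)) ((hsr _ _).2 (Or.inr rfl)) h2
    · exact (hstep (i + 1) i i h3 ((hsr _ _).2 (Or.inr rfl)) ((hsr _ _).2 (Or.inl rfl))
        fun j h4 h5 => h2 j h5 h4).symm
  by_cases hex : ∃ i, (q (i + 1) : ZMod n) = q i + 1
  · obtain ⟨i0, hi0⟩ := hex
    have h1 : ∀ i, (q (i + 1) : ZMod n) = q i + 1 → (q (i + 1 + 1) : ZMod n) = q (i + 1) + 1 := by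
      intro i hi
      rcases hpm (i + 1) with h2 | h2
      · exact h2
      · exfalso
        rw [hi] at h2
        have h3 := hqinj _ _ (add_right_cancel h2)
        apply htwo
        have h4 : i + 2 = i := by
          calc i + 2 = i + 1 + 1 := by ring
            _ = i := h3.symm
        simpa using h4
    have h2 : ∀ k : ℕ, (q (i0 + k + 1) : ZMod n) = q (i0 + k) + 1 := by
      intro k
      induction k with
      | zero => simpa using hi0
      | succ k ih =>
        push_cast
        rw [← add_assoc]
        exact h1 _ ih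
    have h3 : ∀ i, (q (i + 1) : ZMod n) = q i + 1 := by
      intro i
      have := h2 (i - i0).val
      simpa using this
    exact core_pos h n hn s r q hq hqs h3 hsr hrr hnrr
  · push Not at hex
    have h3 : ∀ i, (q i : ZMod n) = q (i + 1) + 1 := fun i => (hpm i).resolve_left (hex i)
    refine core_pos h n hn (fun i => s (-i)) (fun i => r (-i - 1)) (fun i => q (-i))
      (fun i => hq _) (fun i j hij => hqs _ _ hij) ?_ ?_ ?_ ?_
    · intro i
      have := h3 (-(i + 1))
      rw [show -(i + 1) + 1 = -i by ring] at this
      exact this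
    · intro i j
      rw [hsr]
      constructor
      · rintro (h4 | h4)
        · right
          rw [show j = -(-j) by ring, h4]
          ring
        · left
          rw [show j = -(-j) by ring, h4]
          ring
      · rintro (h4 | h4)
        · right
          rw [h4]
          ring
        · left
          rw [h4]
          ring
    · intro i
      have := hrr (-(i + 1) - 1)
      rw [show -(i + 1) - 1 + 1 = -i - 1 by ring] at this
      exact this.symm
    · intro i h4
      have := hnrr (-(i + 2) - 1)
      rw [show -(i + 2) - 1 + 2 = -i - 1 by ring] at this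
      exact this h4.symm

end core

/-! ### Words from chord diagrams -/

section circle

variable {V : Type}

open Classical in
/-- a graph whose adjacency is the interlacing of intervals is representable -/
theorem circle [Fintype V] (G : SimpleGraph V) (a b : V → ℕ) (hab : ∀ v, a v < b v)
    (ha : Function.Injective a) (hb : Function.Injective b) (hne : ∀ u v, a u ≠ b v)
    (hG : ∀ u v, G.Adj u v ↔ (a u < a v ∧ a v < b u ∧ b u < b v) ∨
      (a v < a u ∧ a u < b v ∧ b v < b u)) : Representable G := by
  -- the word
  let P : Finset ℕ := Finset.univ.image a ∪ Finset.univ.image b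
  let N := P.sup id + 1
  -- letters at the positions
  let L : ℕ → List V := fun i =>
    if h : ∃ v, a v = i ∨ b v = i then [h.choose] else []
  have hLa : ∀ v, L (a v) = [v] := by
    intro v
    have h : ∃ u, a u = a v ∨ b u = a v := ⟨v, Or.inl rfl⟩
    simp only [L, dif_pos h]
    have h1 := h.choose_spec
    rcases h1 with h1 | h1
    · rw [ha h1]
    · exact absurd h1.symm (hne _ _)
  have hLb : ∀ v, L (b v) = [v] := by
    intro v
    have h : ∃ u, a u = b v ∨ b u = b v := ⟨v, Or.inr rfl⟩
    simp only [L, dif_pos h]
    have h1 := h.choose_spec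
    rcases h1 with h1 | h1
    · exact absurd h1 (hne _ _)
    · rw [hb h1]
  have hL0 : ∀ i, (∀ v, a v ≠ i ∧ b v ≠ i) → L i = [] := by
    intro i hi
    have h : ¬ ∃ u, a u = i ∨ b u = i := by
      rintro ⟨u, h1 | h1⟩
      · exact (hi u).1 h1
      · exact (hi u).2 h1
    simp only [L, dif_neg h]
  let W : ℕ → List V := fun t => (List.range t).flatMap L
  have hW : ∀ t, W (t + 1) = W t ++ L t := by
    intro t
    simp only [W, List.range_succ, List.flatMap_append, List.flatMap_singleton]
  have hcount : ∀ x t, (W t).count x = (if a x < t then 1 else 0) + (if b x < t then 1 else 0) := by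
    intro x t
    induction t with
    | zero => simp [W]
    | succ t ih =>
      rw [hW, List.count_append, ih]
      by_cases h1 : ∃ v, a v = t
      · obtain ⟨v, rfl⟩ := h1
        rw [hLa, List.count_singleton]
        have h2 : b x ≠ a v := (hne v x).symm
        by_cases h3 : v = x
        · subst h3
          simp only [beq_self_eq_true, if_true]
          split_ifs <;> omega
        · have h4 : a x ≠ a v := fun h => h3 (ha h).symm
          have h5 : (v == x) = false := by simpa using h3
          simp only [h5, Bool.false_eq_true, if_false]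
          split_ifs <;> omega
      · by_cases h2 : ∃ v, b v = t
        · obtain ⟨v, rfl⟩ := h2
          rw [hLb, List.count_singleton]
          have h2 : a x ≠ b v := hne x v
          by_cases h3 : v = x
          · subst h3
            simp only [beq_self_eq_true, if_true]
            split_ifs <;> omega
          · have h4 : b x ≠ b v := fun h => h3 (hb h).symm
            have h5 : (v == x) = false := by simpa using h3
            simp only [h5, Bool.false_eq_true, if_false]
            split_ifs <;> omega
        · push Not at h1 h2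
          rw [hL0 t fun v => ⟨h1 v, h2 v⟩, List.count_nil]
          have h3 := h1 x
          have h4 := h2 x
          split_ifs <;> omega
  have hpre : ∀ t p, p <+: W t → ∃ t' ≤ t, p = W t' := by
    intro t
    induction t with
    | zero =>
      intro p hp
      refine ⟨0, le_rfl, ?_⟩
      simpa [W] using hp
    | succ t ih =>
      intro p hp
      rw [hW] at hp
      by_cases h1 : ∃ v, L t = [v]
      · obtain ⟨v, hv⟩ := h1
        rw [hv, List.prefix_concat_iff] at hp
        rcases hp with hp | hp
        · exact ⟨t + 1, le_rfl, by rw [hW, hv, hp]⟩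
        · obtain ⟨t', h2, h3⟩ := ih p hp
          exact ⟨t', by omega, h3⟩
      · have h2 : L t = [] := by
          apply hL0
          intro v
          refine ⟨?_, ?_⟩
          · rintro rfl
            exact h1 ⟨v, hLa v⟩
          · rintro rfl
            exact h1 ⟨v, hLb v⟩
        rw [h2, List.append_nil] at hp
        obtain ⟨t', h3, h4⟩ := ih p hp
        exact ⟨t', by omega, h4⟩
  have hpre' : ∀ t t', t ≤ t' → W t <+: W t' := by
    intro t t' h
    induction t', h using Nat.le_induction with
    | base => exact List.prefix_rfl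
    | succ t' h ih =>
      rw [hW]
      exact ih.trans (List.prefix_append _ _)
  have hN : ∀ v, b v < N := by
    intro v
    have : id (b v) ≤ P.sup id := Finset.le_sup (by simp [P])
    simp only [id] at this
    omega
  have hD : ∀ x y, x ≠ y → (altR (W N) x y ↔ a x < a y ∧ a y < b x ∧ b x < b y) := by
    intro x y hxy
    rw [altR_iff _ x y hxy]
    have h1 := hab x
    have h2 := hab y
    have h3 := hN x
    have h4 := hN y
    have h5 : a x ≠ a y := fun h => hxy (ha h)
    have h6 : b x ≠ b y := fun h => hxy (hb h)
    have h7 := hne x y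
    have h8 := hne y x
    constructor
    · intro h
      have k1 := h (W (a y + 1)) (hpre' _ _ (by omega))
      have k2 := h (W (b x + 1)) (hpre' _ _ (by omega))
      have k3 := h (W (b y + 1)) (hpre' _ _ (by omega))
      simp only [hcount] at k1 k2 k3
      refine ⟨?_, ?_, ?_⟩
      · by_contra h9
        rw [if_pos (by omega), if_neg (by omega), if_neg (by omega)] at k1
        split_ifs at k1 <;> omega
      · by_contra h9
        rw [if_neg (by omega), if_neg (by omega), if_pos (by omega), if_pos (by omega)] at k2
        omega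
      · by_contra h9
        rw [if_pos (by omega : a y < b y + 1), if_pos (by omega : b y < b y + 1),
          if_neg (by omega : ¬ b x < b y + 1)] at k3
        split_ifs at k3 <;> omega
    · rintro ⟨h9, h10, h11⟩ p hp
      obtain ⟨t, -, rfl⟩ := hpre N p hp
      rw [hcount, hcount]
      split_ifs <;> omega
  refine ⟨W N, fun v => ?_, fun x y => ?_⟩
  · rw [← List.count_pos_iff, hcount]
    have := hN v
    rw [if_pos (by omega : b v < N)]
    omega
  · have hmem : ∀ v, v ∈ W N := by
      intro v
      rw [← List.count_pos_iff, hcount]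
      have := hN v
      rw [if_pos (by omega : b v < N)]
      omega
    constructor
    · intro h
      have hxy : x ≠ y := h.ne
      refine ⟨hxy, hmem x, hmem y, ?_⟩
      rw [chain_iff _ x y hxy, hD x y hxy, hD y x hxy.symm]
      exact (hG x y).1 h
    · rintro ⟨hxy, -, -, h⟩
      rw [chain_iff _ x y hxy, hD x y hxy, hD y x hxy.symm] at h
      exact (hG x y).2 h

end circle

/-! ### Line graphs of subgraphs of fans -/

section fan

variable {V : Type}

lemma Sym2.inf_sup_cases (φ : V → ℕ) (e : Sym2 V) : ∃ u v, e = s(u, v) ∧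
    (e.map φ).inf = φ u ∧ (e.map φ).sup = φ v := by
  induction e using Sym2.ind with
  | _ u v =>
    rcases le_total (φ u) (φ v) with h | h
    · exact ⟨u, v, rfl, by simp [h], by simp [h]⟩
    · exact ⟨v, u, Sym2.eq_swap, by simp [h], by simp [h]⟩

/-- finite graphs that embed in an infinite fan have representable line graphs -/
theorem fan_representable [Fintype V] (G : SimpleGraph V) (φ : V → ℕ)
    (hφ : Function.Injective φ)
    (hG : ∀ u v, G.Adj u v → φ u = 0 ∨ φ v = 0 ∨ φ v = φ u + 1 ∨ φ u = φ v + 1) :
    Representable G.lineGraph := by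
  classical
  have : Fintype G.edgeSet := Fintype.ofFinite _
  obtain ⟨M, hM⟩ : ∃ M, ∀ v, φ v < M :=
    ⟨(Finset.univ : Finset V).sup φ + 1, fun v => Nat.lt_succ_of_le (Finset.le_sup (Finset.mem_univ v))⟩
  let p : G.edgeSet → ℕ := fun e => ((e : Sym2 V).map φ).inf
  let q : G.edgeSet → ℕ := fun e => ((e : Sym2 V).map φ).sup
  have hrep : ∀ e : G.edgeSet, ∃ u v, (e : Sym2 V) = s(u, v) ∧ p e = φ u ∧ q e = φ v :=
    fun e => Sym2.inf_sup_cases φ e
  have hpq : ∀ e : G.edgeSet, (p e = 0 ∧ 1 ≤ q e ∨ 1 ≤ p e ∧ q e = p e + 1) ∧ q e < M := by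
    intro e
    obtain ⟨u, v, h1, h2, h3⟩ := hrep e
    have h4 : G.Adj u v := by
      have := e.2
      rw [h1] at this
      exact this
    have h5 : φ u ≠ φ v := fun h => h4.ne (hφ h)
    have h6 : p e ≤ q e := Sym2.inf_le_sup _
    have h7 := hG u v h4
    rw [h2, h3] at *
    have h8 := hM v
    omega
  have hmem : ∀ (e : G.edgeSet) (w : V), w ∈ (e : Sym2 V) ↔ φ w = p e ∨ φ w = q e := by
    intro e w
    obtain ⟨u, v, h1, h2, h3⟩ := hrep e
    rw [h1, h2, h3, Sym2.mem_iff, hφ.eq_iff, hφ.eq_iff]
  have hinj : ∀ e e' : G.edgeSet, p e = p e' → q e = q e' → e = e' := by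
    intro e e' h1 h2
    apply Subtype.ext
    apply Sym2.ext
    intro w
    rw [hmem, hmem, h1, h2]
  have hadj : ∀ e e' : G.edgeSet, G.lineGraph.Adj e e' ↔ ¬ (p e = p e' ∧ q e = q e') ∧
      (p e = p e' ∨ p e = q e' ∨ q e = p e' ∨ q e = q e') := by
    intro e e'
    rw [lineGraph_adj_iff_exists]
    apply and_congr
    · rw [not_iff_not]
      exact ⟨fun h => by rw [h]; exact ⟨rfl, rfl⟩, fun h => hinj e e' h.1 h.2⟩
    · constructor
      · rintro ⟨w, h1, h2⟩
        rw [hmem] at h1 h2
        omega
      · obtain ⟨u, v, h1, h2, h3⟩ := hrep e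
        intro h
        rcases h with h | h | h | h
        · exact ⟨u, (hmem _ _).2 (Or.inl h2.symm), (hmem _ _).2 (Or.inl (by omega))⟩
        · exact ⟨u, (hmem _ _).2 (Or.inl h2.symm), (hmem _ _).2 (Or.inr (by omega))⟩
        · exact ⟨v, (hmem _ _).2 (Or.inr h3.symm), (hmem _ _).2 (Or.inl (by omega))⟩
        · exact ⟨v, (hmem _ _).2 (Or.inr h3.symm), (hmem _ _).2 (Or.inr (by omega))⟩
  refine circle G.lineGraph (fun e => if p e = 0 then 4 * q e else 4 * p e - 1)
    (fun e => if p e = 0 then 4 * M + 4 + q e else 4 * p e + 5) ?_ ?_ ?_ ?_ ?_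
  · intro e
    have := hpq e
    split_ifs <;> omega
  · intro e e' h
    have h1 := hpq e
    have h2 := hpq e'
    dsimp only at h
    apply hinj
    · split_ifs at h <;> omega
    · split_ifs at h <;> omega
  · intro e e' h
    have h1 := hpq e
    have h2 := hpq e'
    dsimp only at h
    apply hinj
    · split_ifs at h <;> omega
    · split_ifs at h <;> omega
  · intro e e'
    have h1 := hpq e
    have h2 := hpq e'
    split_ifs <;> omega
  · intro e e'
    have h1 := hpq e
    have h2 := hpq e'
    rw [hadj]
    split_ifs <;> omega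

end fan

/-! ### Wheels -/

/-- the wheel: a hub `none` adjacent to all vertices of the cycle `ZMod n` -/
def wheel (n : ℕ) : SimpleGraph (Option (ZMod n)) :=
  SimpleGraph.fromRel fun x y => x = none ∨ ∃ i, x = some i ∧ y = some (i + 1)

lemma wheel_spoke (n : ℕ) (i : ZMod n) : s(none, some i) ∈ (wheel n).edgeSet := by
  rw [SimpleGraph.mem_edgeSet]
  simp [wheel]

lemma wheel_rim (n : ℕ) (h : (1 : ZMod n) ≠ 0) (i : ZMod n) :
    s(some i, some (i + 1)) ∈ (wheel n).edgeSet := by
  rw [SimpleGraph.mem_edgeSet]
  simp [wheel, h]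

theorem wheel_not_representable (n : ℕ) (hn : 4 ≤ n) : ¬ Representable (wheel n).lineGraph := by
  intro h
  obtain ⟨R, hR⟩ := exists_semi h
  have hk : ∀ k : ℕ, 0 < k → k < 4 → ((k : ℕ) : ZMod n) ≠ 0 := by
    intro k h1 h2 h3
    have h4 : ((k : ℕ) : ZMod n).val = k := ZMod.val_cast_of_lt (by omega)
    rw [h3] at h4
    have : NeZero n := ⟨by omega⟩
    rw [ZMod.val_zero] at h4
    omega
  have h1 : (1 : ZMod n) ≠ 0 := by simpa using hk 1 (by norm_num) (by norm_num)
  have h2 : (2 : ZMod n) ≠ 0 := by simpa using hk 2 (by norm_num) (by norm_num)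
  have h3 : (3 : ZMod n) ≠ 0 := by simpa using hk 3 (by norm_num) (by norm_num)
  refine wheel_no_semi hR n hn (fun i => ⟨_, wheel_spoke n i⟩) (fun i => ⟨_, wheel_rim n h1 i⟩)
    ?_ ?_ ?_ ?_
  · intro i j hij
    rw [lineGraph_adj_iff_exists]
    refine ⟨?_, none, by simp, by simp⟩
    intro h
    have := congrArg Subtype.val h
    simp only [Sym2.eq_iff] at this
    rcases this with ⟨_, h5⟩ | ⟨h5, _⟩
    · exact hij (Option.some_injective _ h5)
    · exact absurd h5 (by simp)
  · intro i j
    rw [lineGraph_adj_iff_exists]
    constructor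
    · rintro ⟨_, w, h5, h6⟩
      simp only [Sym2.mem_iff] at h5 h6
      rcases h5 with rfl | rfl
      · simp at h6
      · simpa using h6
    · intro h5
      refine ⟨?_, some j, by simp, ?_⟩
      · intro h
        have := congrArg Subtype.val h
        simp at this
      · simpa using h5
  · intro i
    rw [lineGraph_adj_iff_exists]
    refine ⟨?_, some (i + 1), by simp, by simp⟩
    intro h
    have := congrArg Subtype.val h
    simp only [Sym2.eq_iff, Option.some.injEq] at this
    rcases this with ⟨h5, _⟩ | ⟨h5, _⟩
    · exact h1 (by simpa using h5.symm)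
    · apply h2
      have h6 : i + 2 = i := by
        calc i + 2 = i + 1 + 1 := by ring
          _ = i := h5.symm
      simpa using h6
  · intro i h
    rw [lineGraph_adj_iff_exists] at h
    obtain ⟨_, w, h5, h6⟩ := h
    simp only [Sym2.mem_iff] at h5 h6
    rcases h5 with rfl | rfl
    · simp only [Option.some.injEq] at h6
      rcases h6 with h6 | h6
      · exact h2 (by simpa using h6.symm)
      · apply h3
        have h7 : i + 3 = i := by
          calc i + 3 = i + 2 + 1 := by ring
            _ = i := h6.symm
        simpa using h7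
    · simp only [Option.some.injEq] at h6
      rcases h6 with h6 | h6
      · apply h1
        have h7 : (i + 1) + 1 = i + 1 := by
          calc (i + 1) + 1 = i + 2 := by ring
            _ = i + 1 := h6.symm
        simpa using h7
      · apply h2
        have h7 : (i + 1) + 2 = i + 1 := by
          calc (i + 1) + 2 = i + 2 + 1 := by ring
            _ = i + 1 := h6.symm
        simpa using h7

/-- **Answer: no.**  No finite family of forbidden subgraphs characterises the graphs whose line
graph is representable. -/
theorem result : ¬ ∃ S : Set (Σ m : ℕ, SimpleGraph (Fin m)), S.Finite ∧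
    ∀ (V : Type) [Fintype V] (G : SimpleGraph V),
      Representable G.lineGraph ↔ ∀ F ∈ S, ¬ F.2.IsContained G := by
  rintro ⟨S, hS, h⟩
  obtain ⟨N, hN⟩ := (hS.image Sigma.fst).bddAbove
  have hN' : ∀ F ∈ S, F.1 ≤ N := fun F hF => hN ⟨F, hF, rfl⟩
  set n := N + 4 with hn
  have : NeZero n := ⟨by omega⟩
  have h1 := wheel_not_representable n (by omega)
  rw [h] at h1
  push Not at h1
  obtain ⟨F, hF, hc⟩ := h1
  obtain ⟨f⟩ := hc
  -- a missing vertex of the rim
  obtain ⟨i0, hi0⟩ : ∃ i0 : ZMod n, ∀ x, f x ≠ some i0 := by
    by_contra hcon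
    push Not at hcon
    choose g hg using hcon
    have hginj : Function.Injective g := by
      intro a b hab
      have h2 := hg a
      rw [hab, hg b] at h2
      exact (Option.some_injective _ h2).symm
    have h2 := Fintype.card_le_of_injective g hginj
    rw [ZMod.card, Fintype.card_fin] at h2
    have h3 := hN' F hF
    omega
  let φ : Fin F.1 → ℕ := fun x => (f x).elim 0 fun j => (j - i0).val
  have hφ0 : ∀ x j, f x = some j → φ x = (j - i0).val ∧ φ x ≠ 0 := by
    intro x j hx
    have h2 : φ x = (j - i0).val := by simp [φ, hx]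
    refine ⟨h2, ?_⟩
    rw [h2, Ne, ZMod.val_eq_zero, sub_eq_zero]
    rintro rfl
    exact hi0 x hx
  have hφn : ∀ x, f x = none → φ x = 0 := by
    intro x hx
    simp [φ, hx]
  have hinj : Function.Injective φ := by
    intro x y hxy
    apply f.injective
    change f x = f y
    rcases hx : f x with _ | j <;> rcases hy : f y with _ | k
    · rfl
    · exact absurd (hxy.symm.trans (hφn x hx)) (hφ0 y k hy).2
    · exact absurd (hxy.trans (hφn y hy)) (hφ0 x j hx).2
    · have h2 : (j - i0).val = (k - i0).val := by
        rw [← (hφ0 x j hx).1, ← (hφ0 y k hy).1, hxy]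
      have h3 := ZMod.val_injective n h2
      rw [sub_left_inj] at h3
      rw [h3]
  have hstep : ∀ j : ZMod n, j - i0 ≠ 0 → (j + 1) - i0 ≠ 0 →
      ((j + 1) - i0).val = (j - i0).val + 1 := by
    intro j h2 h3
    have h4 : (j + 1) - i0 = (j - i0) + 1 := by ring
    rw [h4] at h3 ⊢
    have h5 : (j - i0).val < n := ZMod.val_lt _
    have h6 : (((j - i0).val + 1 : ℕ) : ZMod n) = (j - i0) + 1 := by
      push_cast
      rw [ZMod.natCast_zmod_val]
    rcases Nat.lt_or_ge ((j - i0).val + 1) n with h7 | h7
    · rw [← h6, ZMod.val_cast_of_lt h7]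
    · exfalso
      apply h3
      have h8 : (j - i0).val + 1 = n := by omega
      rw [← h6, h8, ZMod.natCast_self]
  have h2 : Representable F.2.lineGraph := by
    refine fan_representable F.2 φ hinj fun u v huv => ?_
    have h3 : (wheel n).Adj (f u) (f v) := f.toHom.map_adj huv
    unfold wheel at h3
    rw [SimpleGraph.fromRel_adj] at h3
    rcases h3.2 with (h4 | ⟨i, h4, h5⟩) | (h4 | ⟨i, h4, h5⟩)
    · exact Or.inl (hφn u h4)
    · right; right; left
      rw [(hφ0 u i h4).1, (hφ0 v (i + 1) h5).1]
      apply hstep
      · rw [Ne, sub_eq_zero]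
        rintro rfl
        exact hi0 u h4
      · rw [Ne, sub_eq_zero]
        intro h6
        rw [h6] at h5
        exact hi0 v h5
    · exact Or.inr (Or.inl (hφn v h4))
    · right; right; right
      rw [(hφ0 v i h4).1, (hφ0 u (i + 1) h5).1]
      apply hstep
      · rw [Ne, sub_eq_zero]
        rintro rfl
        exact hi0 v h4
      · rw [Ne, sub_eq_zero]
        intro h6
        rw [h6] at h5
        exact hi0 u h5
  exact (h _ F.2).1 h2 F hF (IsContained.refl _)

end Pool.Agent.Results.MP_c3beeb_co.NoFiniteFamily
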